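import Mathlib

set_option autoImplicit false

namespace Pool.Agent.H289.ES

open Finset

/-- ordered good triples -/
def good {V : Type} (s : V → V → Bool) (x y z : V) : Prop :=
  x ≠ y ∧ y ≠ z ∧ x ≠ z ∧ s x y ≠ s x z ∧ s y x ≠ s y z ∧ s z x ≠ s z y

instance {V : Type} [DecidableEq V] (s : V → V → Bool) (x y z : V) : Decidable (good s x y z) := by
  unfold good; infer_instance

/-- the finset of ordered good triples -/
def G {V : Type} [Fintype V] [DecidableEq V] (s : V → V → Bool) : Finset (V × V × V) :=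
  univ.filter (fun p => good s p.1 p.2.1 p.2.2)

theorem mem_G {V : Type} [Fintype V] [DecidableEq V] (s : V → V → Bool) (a b c : V) :
    (a, b, c) ∈ G s ↔ good s a b c := by
  simp [G]

/-- composition of sign structures -/
def comp {A B : Type} [DecidableEq A] (s : A → A → Bool) (s' : B → B → Bool) :
    A × B → A × B → Bool := fun p q => if p.1 = q.1 then s' p.2 q.2 else s p.1 q.1

theorem G_comp {A B : Type} [Fintype A] [DecidableEq A] [Fintype B] [DecidableEq B]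
    (s : A → A → Bool) (s' : B → B → Bool) :
    (G s).card * (Fintype.card B) ^ 3 + Fintype.card A * (G s').card ≤ (G (comp s s')).card := by
  classical
  let f : (A × A × A) × (B × B × B) → (A × B) × (A × B) × (A × B) :=
    fun p => ((p.1.1, p.2.1), (p.1.2.1, p.2.2.1), (p.1.2.2, p.2.2.2))
  let g : A × (B × B × B) → (A × B) × (A × B) × (A × B) :=
    fun p => ((p.1, p.2.1), (p.1, p.2.2.1), (p.1, p.2.2.2))
  have hf : Function.Injective f := by
    rintro ⟨⟨a, b, c⟩, ⟨x, y, z⟩⟩ ⟨⟨a', b', c'⟩, ⟨x', y', z'⟩⟩ h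
    simp only [f, Prod.mk.injEq] at h ⊢
    tauto
  have hg : Function.Injective g := by
    rintro ⟨a, ⟨x, y, z⟩⟩ ⟨a', ⟨x', y', z'⟩⟩ h
    simp only [g, Prod.mk.injEq] at h ⊢
    tauto
  have h1 : (((G s) ×ˢ (univ : Finset (B × B × B))).image f).card = (G s).card * (Fintype.card B) ^ 3 := by
    rw [card_image_of_injective _ hf, card_product, card_univ, Fintype.card_prod, Fintype.card_prod]
    ring
  have h2 : (((univ : Finset A) ×ˢ (G s')).image g).card = Fintype.card A * (G s').card := by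
    rw [card_image_of_injective _ hg, card_product, card_univ]
  rw [← h1, ← h2, ← card_union_of_disjoint]
  · apply card_le_card
    intro p hp
    rw [mem_union, mem_image, mem_image] at hp
    rcases hp with ⟨⟨⟨a, b, c⟩, ⟨x, y, z⟩⟩, hm, rfl⟩ | ⟨⟨a, ⟨x, y, z⟩⟩, hm, rfl⟩
    · rw [mem_product] at hm
      have hm := (mem_G s a b c).mp hm.1
      obtain ⟨h1, h2, h3, h4, h5, h6⟩ := hm
      simp only [f, mem_G, good, comp, ne_eq, Prod.mk.injEq, h1, h2, h3,
        h1.symm, h2.symm, h3.symm, Ne.symm h1, Ne.symm h2, Ne.symm h3, if_false, false_and, not_false_eq_true, h4, h5, h6, and_true]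
    · rw [mem_product] at hm
      have hm := (mem_G s' x y z).mp hm.2
      obtain ⟨h1, h2, h3, h4, h5, h6⟩ := hm
      simp only [g, mem_G, good, comp, ne_eq, Prod.mk.injEq, h1, h2, h3, if_true, not_false_eq_true, h4, h5, h6, and_true, and_false]
  · rw [disjoint_left]
    intro p hp hq
    rw [mem_image] at hp hq
    obtain ⟨⟨⟨a, b, c⟩, ⟨x, y, z⟩⟩, hm, rfl⟩ := hp
    obtain ⟨⟨a', ⟨x', y', z'⟩⟩, hm', he⟩ := hq
    rw [mem_product] at hm
    have hm := (mem_G s a b c).mp hm.1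
    simp only [f, g, Prod.mk.injEq] at he
    exact hm.1 (he.1.1.symm.trans he.2.1.1)

/-- transport along an equivalence -/
theorem G_equiv {V W : Type} [Fintype V] [DecidableEq V] [Fintype W] [DecidableEq W]
    (e : W ≃ V) (s : V → V → Bool) :
    (G (fun a b : W => s (e a) (e b))).card = (G s).card := by
  classical
  refine Finset.card_bij (fun p _ => (e p.1, e p.2.1, e p.2.2)) ?_ ?_ ?_
  · rintro ⟨a, b, c⟩ h
    rw [mem_G] at h ⊢
    simpa [good] using h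
  · rintro ⟨a, b, c⟩ _ ⟨a', b', c'⟩ _ h
    simpa using h
  · rintro ⟨a, b, c⟩ h
    refine ⟨(e.symm a, e.symm b, e.symm c), ?_, by simp⟩
    rw [mem_G] at h ⊢
    simpa [good] using h

def P (n m : ℕ) : Prop := ∃ s : Fin n → Fin n → Bool, m ≤ (G s).card

theorem P_comp {n m n' m' : ℕ} (h : P n m) (h' : P n' m') : P (n * n') (m * n' ^ 3 + n * m') := by
  obtain ⟨s, hs⟩ := h
  obtain ⟨s', hs'⟩ := h'
  refine ⟨fun a b => comp s s' (finProdFinEquiv.symm a) (finProdFinEquiv.symm b), ?_⟩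
  rw [G_equiv finProdFinEquiv.symm (comp s s')]
  refine le_trans ?_ (G_comp s s')
  simp only [Fintype.card_fin]
  gcongr

/-- the hypergraph -/
def Hyp {n : ℕ} (s : Fin n → Fin n → Bool) : Finset (Finset (Fin n)) :=
  (univ.powersetCard 3).filter (fun e => ∀ x ∈ e, ∀ y ∈ e, ∀ z ∈ e, x ≠ y → y ≠ z → x ≠ z → s x y ≠ s x z)

theorem Hyp_card {n : ℕ} (s : Fin n → Fin n → Bool) : (G s).card ≤ 6 * (Hyp s).card := by
  classical
  have himg : (G s).image (fun p => ({p.1, p.2.1, p.2.2} : Finset (Fin n))) ⊆ Hyp s := by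
    intro e he
    rw [mem_image] at he
    obtain ⟨⟨a, b, c⟩, h, rfl⟩ := he
    rw [mem_G] at h
    obtain ⟨h1, h2, h3, h4, h5, h6⟩ := h
    simp only [Hyp, mem_filter, mem_powersetCard, subset_univ, true_and]
    refine ⟨card_eq_three.mpr ⟨a, b, c, h1, h3, h2, rfl⟩, ?_⟩
    intro x hx y hy z hz hxy hyz hxz
    simp only [mem_insert, mem_singleton] at hx hy hz
    rcases hx with rfl | rfl | rfl <;> rcases hy with rfl | rfl | rfl <;>
      rcases hz with rfl | rfl | rfl <;> first | exact absurd rfl hxy | exact absurd rfl hyz | exact absurd rfl hxz | assumption | exact Ne.symm ‹_›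
  have hfib : ∀ e ∈ (G s).image (fun p => ({p.1, p.2.1, p.2.2} : Finset (Fin n))),
      ((G s).filter (fun p => ({p.1, p.2.1, p.2.2} : Finset (Fin n)) = e)).card ≤ 6 := by
    intro e he
    have hec : e.card = 3 := by
      have := himg he
      simp only [Hyp, mem_filter, mem_powersetCard] at this
      exact this.1.2
    have hoff : e.offDiag.card = 6 := by
      rw [offDiag_card, hec]
    rw [← hoff]
    refine card_le_card_of_injOn (fun p => (p.1, p.2.1)) ?_ ?_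
    · rintro ⟨a, b, c⟩ h
      rw [coe_filter, Set.mem_setOf_eq, mem_G] at h
      obtain ⟨⟨h1, _⟩, rfl⟩ := h
      simp [h1]
    · rintro ⟨a, b, c⟩ h ⟨a', b', c'⟩ h' heq
      rw [coe_filter, Set.mem_setOf_eq, mem_G] at h h'
      simp only [Prod.mk.injEq] at heq
      obtain ⟨rfl, rfl⟩ := heq
      obtain ⟨⟨h1, h2, h3, _⟩, hh⟩ := h
      obtain ⟨_, hh'⟩ := h'
      have : c ∈ ({a, b, c'} : Finset (Fin n)) := by rw [hh', ← hh]; simp
      simp only [mem_insert, mem_singleton] at this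
      rcases this with h | h | h
      · exact absurd h.symm h3
      · exact absurd h.symm h2
      · rw [h]
  calc (G s).card ≤ 6 * ((G s).image (fun p => ({p.1, p.2.1, p.2.2} : Finset (Fin n)))).card :=
        card_le_mul_card_image _ 6 hfib
    _ ≤ 6 * (Hyp s).card := Nat.mul_le_mul_left _ (card_le_card himg)

theorem Hyp_three {n : ℕ} (s : Fin n → Fin n → Bool) : ∀ e ∈ Hyp s, e.card = 3 := by
  intro e he
  simp only [Hyp, mem_filter, mem_powersetCard] at he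
  exact he.1.2

theorem Hyp_sep {n : ℕ} (s : Fin n → Fin n → Bool) (v x y : Fin n) (hxy : x ≠ y)
    (h : ({v, x, y} : Finset (Fin n)) ∈ Hyp s) : s v x ≠ s v y := by
  have hc := Hyp_three s _ h
  simp only [Hyp, mem_filter, mem_powersetCard] at h
  have hvx : v ≠ x := by
    rintro rfl
    have : ({v, v, y} : Finset (Fin n)).card ≤ 2 := by
      rw [insert_eq_of_mem (by simp)]; exact card_le_two
    omega
  have hvy : v ≠ y := by
    rintro rfl
    have : ({v, x, v} : Finset (Fin n)).card ≤ 2 := by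
      rw [insert_eq_of_mem (by simp)]; exact card_le_two
    omega
  exact h.2 v (by simp) x (by simp) y (by simp) hvx hxy hvy

theorem main_iter (N0 m0 : ℕ) (h0 : P N0 m0) (t : ℕ) :
    ∃ m : ℕ, P (N0 ^ t) m ∧ (N0 ^ 3 - N0 : ℝ) * m = m0 * ((N0 : ℝ) ^ (3 * t) - (N0 : ℝ) ^ t) := by
  induction t with
  | zero => exact ⟨0, ⟨fun _ _ => true, Nat.zero_le _⟩, by simp⟩
  | succ t ih =>
    obtain ⟨m, hm, hm'⟩ := ih
    refine ⟨m0 * (N0 ^ t) ^ 3 + N0 * m, ?_, ?_⟩
    · have := P_comp h0 hm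
      rwa [pow_succ, mul_comm (N0 ^ t) N0]
    · push_cast
      have : (N0 ^ 3 - N0 : ℝ) * (m0 * (N0 ^ t) ^ 3 + N0 * m) =
          (N0 ^ 3 - N0 : ℝ) * (m0 * (N0 ^ t) ^ 3) + N0 * ((N0 ^ 3 - N0 : ℝ) * m) := by ring
      rw [this, hm']
      ring

theorem key_lower (N0 m0 : ℕ) (h0 : P N0 m0) (hN : N0 ^ 3 < 4 * m0 + N0) (hN2 : 2 ≤ N0) :
    ∃ c : ℝ, 1 / 4 < c ∧ ∀ t : ℕ, ∃ H : Finset (Finset (Fin (N0 ^ t))),
      (∀ e ∈ H, e.card = 3) ∧
      (∃ s : Fin (N0 ^ t) → Fin (N0 ^ t) → Bool, ∀ v x y, x ≠ y → ({v, x, y} : Finset (Fin (N0 ^ t))) ∈ H → s v x ≠ s v y) ∧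
      c * (((N0 : ℝ) ^ t) ^ 3 - (N0 : ℝ) ^ t) / 6 ≤ (H.card : ℝ) := by
  have hpos : (0 : ℝ) < (N0 : ℝ) ^ 3 - N0 := by
    have : (2 : ℝ) ≤ N0 := by exact_mod_cast hN2
    nlinarith [mul_self_nonneg ((N0 : ℝ) - 1), mul_pos (show (0:ℝ) < N0 by linarith) (show (0:ℝ) < N0 - 1 by linarith)]
  refine ⟨m0 / ((N0 : ℝ) ^ 3 - N0), ?_, ?_⟩
  · rw [lt_div_iff₀ hpos]
    have : ((N0 : ℝ)) ^ 3 < 4 * m0 + N0 := by exact_mod_cast hN
    linarith
  · intro t
    obtain ⟨m, ⟨s, hs⟩, hm⟩ := main_iter N0 m0 h0 t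
    refine ⟨Hyp s, Hyp_three s, ⟨s, fun v x y hxy h => Hyp_sep s v x y hxy h⟩, ?_⟩
    have h1 : (m : ℝ) ≤ 6 * ((Hyp s).card : ℝ) := by exact_mod_cast hs.trans (Hyp_card s)
    have h2 : m0 / ((N0 : ℝ) ^ 3 - N0) * (((N0 : ℝ) ^ t) ^ 3 - (N0 : ℝ) ^ t) = m := by
      rw [div_mul_eq_mul_div, div_eq_iff hpos.ne', ← pow_mul, mul_comm t 3, ← hm]
      ring
    rw [h2]
    linarith

theorem colorable_of {n : ℕ} (H : Finset (Finset (Fin n))) (s : Fin n → Fin n → Bool)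
    (hs : ∀ v x y, x ≠ y → ({v, x, y} : Finset (Fin n)) ∈ H → s v x ≠ s v y) (v : Fin n) :
    (SimpleGraph.fromRel (fun x y : Fin n => ({v, x, y} : Finset (Fin n)) ∈ H)).Colorable 2 := by
  refine ⟨SimpleGraph.Coloring.mk (fun x => if s v x then (0 : Fin 2) else 1) ?_⟩
  intro x y hxy
  rw [SimpleGraph.fromRel_adj] at hxy
  obtain ⟨hne, h | h⟩ := hxy
  · have := hs v x y hne h
    cases h1 : s v x <;> cases h2 : s v y <;> simp_all
  · have := hs v y x hne.symm h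
    cases h1 : s v x <;> cases h2 : s v y <;> simp_all

theorem colorable_of' {n : ℕ} (H : Finset (Finset (Fin n))) (s : Fin n → Fin n → Bool)
    (hs : ∀ v x y, x ≠ y → ({v, x, y} : Finset (Fin n)) ∈ H → s v x ≠ s v y) (v : Fin n) :
    (SimpleGraph.fromRel (fun x y : Fin n => x ≠ v ∧ y ≠ v ∧ ({v, x, y} : Finset (Fin n)) ∈ H)).Colorable 2 := by
  refine ⟨SimpleGraph.Coloring.mk (fun x => if s v x then (0 : Fin 2) else 1) ?_⟩
  intro x y hxy
  rw [SimpleGraph.fromRel_adj] at hxy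
  obtain ⟨hne, ⟨_, _, h⟩ | ⟨_, _, h⟩⟩ := hxy
  · have := hs v x y hne h
    cases h1 : s v x <;> cases h2 : s v y <;> simp_all
  · have := hs v y x hne.symm h
    cases h1 : s v x <;> cases h2 : s v y <;> simp_all

theorem S07484 (N0 m0 : ℕ) (h0 : P N0 m0) (hN : N0 ^ 3 < 4 * m0 + N0) (hN2 : 2 ≤ N0) :
    ¬ (∀ ε : ℝ, 0 < ε → ∃ N : ℕ, ∀ n : ℕ, N ≤ n →
      ∀ H : Finset (Finset (Fin n)),
        (∀ e ∈ H, e.card = 3) →
        (∀ v : Fin n,
          (SimpleGraph.fromRel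
            (fun x y : Fin n => ({v, x, y} : Finset (Fin n)) ∈ H)).Colorable 2) →
        (H.card : ℝ) ≤ (1 / 4 + ε) * ((n.choose 3 : ℕ) : ℝ)) := by
  intro hall
  obtain ⟨c, hc, hk⟩ := key_lower N0 m0 h0 hN hN2
  obtain ⟨N, hNN⟩ := hall ((c - 1 / 4) / 2) (by linarith)
  set t := N + 2 with ht
  have htN : N ≤ N0 ^ t := by
    calc N ≤ t := by omega
      _ ≤ N0 ^ t := (Nat.lt_pow_self (by omega)).le
  obtain ⟨H, h3, ⟨s, hs⟩, hcard⟩ := hk t
  have := hNN (N0 ^ t) htN H h3 (colorable_of H s hs)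
  set n := N0 ^ t with hn
  have hn4 : 4 ≤ n := by
    calc 4 = 2 ^ 2 := by norm_num
      _ ≤ 2 ^ t := Nat.pow_le_pow_right (by norm_num) (by omega)
      _ ≤ N0 ^ t := Nat.pow_le_pow_left hN2 t
  have hnr : (4 : ℝ) ≤ n := by exact_mod_cast hn4
  have hch : ((n.choose 3 : ℕ) : ℝ) = (n : ℝ) * (n - 1) * (n - 2) / 6 := by
    have e1 : n.descFactorial 3 = 6 * n.choose 3 := Nat.descFactorial_eq_factorial_mul_choose n 3
    have e2 : n.descFactorial 3 = (n - 2) * ((n - 1) * n) := by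
      simp [Nat.descFactorial_succ]
    have e3 : ((n - 2 : ℕ) : ℝ) * (((n - 1 : ℕ) : ℝ) * n) = 6 * (n.choose 3 : ℝ) := by
      rw [e2] at e1
      exact_mod_cast e1
    rw [Nat.cast_sub (by omega), Nat.cast_sub (by omega)] at e3
    push_cast at e3
    linarith
  have hcn : ((N0 : ℝ) ^ t) = (n : ℝ) := by rw [hn]; push_cast; rfl
  rw [hcn] at hcard
  rw [hch] at this
  have h5 : c * ((n : ℝ) ^ 3 - n) / 6 ≤ (1 / 4 + (c - 1 / 4) / 2) * ((n : ℝ) * (n - 1) * (n - 2) / 6) := le_trans hcard this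
  have h6 : (n : ℝ) * (n - 1) * (n - 2) < (n : ℝ) ^ 3 - n := by nlinarith
  have h7 : 0 < (n : ℝ) * (n - 1) * (n - 2) := by
    apply mul_pos (mul_pos _ _) _ <;> linarith
  nlinarith

theorem S07266 (N0 m0 : ℕ) (h0 : P N0 m0) (hN : N0 ^ 3 < 4 * m0 + N0) (hN2 : 2 ≤ N0) :
    ¬ (∀ (n : ℕ), 1 ≤ n → ∀ (H : Finset (Finset (Fin n))),
      (∀ e ∈ H, e.card = 3) →
      (∀ x : Fin n,
        (SimpleGraph.fromRel
          (fun a b : Fin n => a ≠ x ∧ b ≠ x ∧ ({x, a, b} : Finset (Fin n)) ∈ H)).Colorable 2) →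
      (H.card : ℝ) < (n : ℝ) ^ 3 / 24) := by
  intro hall
  obtain ⟨c, hc, hk⟩ := key_lower N0 m0 h0 hN hN2
  obtain ⟨t, ht⟩ := exists_nat_gt (4 * c / (4 * c - 1))
  obtain ⟨H, h3, ⟨s, hs⟩, hcard⟩ := hk t
  have hn1 : 1 ≤ N0 ^ t := Nat.one_le_pow _ _ (by omega)
  have := hall (N0 ^ t) hn1 H h3 (colorable_of' H s hs)
  set n := N0 ^ t with hn
  have htn : (t : ℝ) ≤ n := by
    exact_mod_cast (Nat.lt_pow_self (by omega : 1 < N0)).le
  have hcn : ((N0 : ℝ) ^ t) = (n : ℝ) := by rw [hn]; push_cast; rfl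
  rw [hcn] at hcard
  have hn1' : (1 : ℝ) ≤ n := by exact_mod_cast hn1
  have h5 : c * ((n : ℝ) ^ 3 - n) / 6 < (n : ℝ) ^ 3 / 24 := lt_of_le_of_lt hcard this
  have h6 : 4 * c < (4 * c - 1) * n := by
    have : 4 * c / (4 * c - 1) < n := lt_of_lt_of_le ht htn
    rwa [div_lt_iff₀ (by linarith), mul_comm (n : ℝ)] at this
  have h7 : (4 * c - 1) * (n : ℝ) ^ 2 < 4 * c := by
    have : (n : ℝ) * ((4 * c - 1) * (n : ℝ) ^ 2) < n * (4 * c) := by nlinarith
    exact lt_of_mul_lt_mul_left this (by linarith)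
  have h8 : (4 * c - 1) * (n : ℝ) ≤ (4 * c - 1) * (n : ℝ) ^ 2 := by
    apply mul_le_mul_of_nonneg_left _ (by linarith)
    nlinarith
  linarith

end Pool.Agent.H289.ES
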